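import Pool.Agent.H740Z.FsE

set_option autoImplicit false

open Filter Topology
open scoped ENNReal

namespace Pool.Agent.Results.MP_0403fc_an.ACharacterization

/-- The lower density `liminf |A ∩ {1,…,N}| / N`. -/
noncomputable def lowerDensity (A : Set ℕ) : ℝ :=
  liminf (fun N : ℕ => ((A ∩ Set.Icc 1 N).ncard : ℝ) / (N : ℝ)) atTop

/-- `x` is frequently hypercyclic for `T`. -/
def IsFHCVector {𝕜 X : Type} [RCLike 𝕜] [NormedAddCommGroup X] [NormedSpace 𝕜 X]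
    (T : X →L[𝕜] X) (x : X) : Prop :=
  ∀ U : Set X, IsOpen U → U.Nonempty → 0 < lowerDensity {n : ℕ | (T ^ n) x ∈ U}

/-- `T` has a frequently hypercyclic subspace: a closed infinite-dimensional subspace all of
whose nonzero vectors are frequently hypercyclic. -/
def HasFHCSubspace {𝕜 X : Type} [RCLike 𝕜] [NormedAddCommGroup X] [NormedSpace 𝕜 X]
    (T : X →L[𝕜] X) : Prop :=
  ∃ M : Submodule 𝕜 X, IsClosed (M : Set X) ∧ ¬ FiniteDimensional 𝕜 M ∧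
    ∀ x ∈ M, x ≠ 0 → IsFHCVector T x

/-- `∑ 1 / |w₁ ⋯ w_k| ^ q < ∞`. -/
def SummableWeights {𝕜 : Type} [RCLike 𝕜] (q : ℝ) (w : ℕ → 𝕜) : Prop :=
  Summable fun k : ℕ => (‖∏ i ∈ Finset.Ioc 0 k, w i‖ ^ q)⁻¹

/-- There are a set `A` of positive lower density and a constant `C` such that beyond every `K`
there is a finitely supported probability vector `μ` with
`∑_{k ≥ n} μ_k |w_{k-n+1} ⋯ w_k| ^ q ≤ C` for all `n ∈ A`. -/
def AveragedBound {𝕜 : Type} [RCLike 𝕜] (q : ℝ) (w : ℕ → 𝕜) : Prop :=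
  ∃ A : Set ℕ, 0 < lowerDensity A ∧ ∃ C : ℝ, ∀ K : ℕ, ∃ (L : ℕ) (μ : ℕ → ℝ),
    (∀ k, 0 ≤ μ k) ∧ ∑ k ∈ Finset.Ico K L, μ k = 1 ∧ ∀ n ∈ A,
      ∑ k ∈ (Finset.Ico K L).filter (n ≤ ·), μ k * ‖∏ i ∈ Finset.Ioc (k - n) k, w i‖ ^ q ≤ C

/-- There are a set `A` of positive lower density and a closed infinite-dimensional subspace `M₀`
with `T ^ n x → 0` along `n ∈ A` for every `x ∈ M₀`. -/
def NullSubspaceAlongDensity {𝕜 X : Type} [RCLike 𝕜] [NormedAddCommGroup X] [NormedSpace 𝕜 X]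
    (T : X →L[𝕜] X) : Prop :=
  ∃ A : Set ℕ, 0 < lowerDensity A ∧ ∃ M₀ : Submodule 𝕜 X, IsClosed (M₀ : Set X) ∧
    ¬ FiniteDimensional 𝕜 M₀ ∧ ∀ x ∈ M₀, Tendsto (fun n : ℕ => (T ^ n) x) (atTop ⊓ 𝓟 A) (𝓝 0)

/-- The sequence space `ℓ^p(ℕ)` over `𝕜`. -/
def Ell (𝕜 : Type) [RCLike 𝕜] (p : ℝ≥0∞) : Type := lp (fun _ : ℕ => 𝕜) p

noncomputable instance ellGroup (𝕜 : Type) [RCLike 𝕜] (p : ℝ≥0∞) [Fact (1 ≤ p)] :
    NormedAddCommGroup (Ell 𝕜 p) := lp.normedAddCommGroup (E := fun _ : ℕ => 𝕜)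

noncomputable instance ellSpace (𝕜 : Type) [RCLike 𝕜] (p : ℝ≥0∞) [Fact (1 ≤ p)] :
    NormedSpace 𝕜 (Ell 𝕜 p) := lp.instNormedSpace (E := fun _ : ℕ => 𝕜)

/-- The `n`-th coordinate of a sequence in `ℓ^p(ℕ)`. -/
def coord {𝕜 : Type} [RCLike 𝕜] {p : ℝ≥0∞} (x : Ell 𝕜 p) (n : ℕ) : 𝕜 := x.1 n

/-- `B` is the weighted backward shift on `ℓ^p` with weights `w`. -/
def IsWeightedShift {𝕜 : Type} [RCLike 𝕜] {p : ℝ≥0∞} [Fact (1 ≤ p)] (w : ℕ → 𝕜)
    (B : Ell 𝕜 p →L[𝕜] Ell 𝕜 p) : Prop :=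
  ∀ (x : Ell 𝕜 p) (n : ℕ), coord (B x) n = w (n + 1) * coord x (n + 1)

/-- Characterization of the weighted backward shifts on `ℓ^p`, `1 ≤ p < ∞`, over the real or the
complex field, that have a frequently hypercyclic subspace. -/
theorem result (𝕜 : Type) [RCLike 𝕜] (p : ℝ≥0∞) [Fact (1 ≤ p)] (hp : p ≠ ⊤) (w : ℕ → 𝕜)
    (hw : ∀ n, w n ≠ 0) (hb : BddAbove (Set.range fun n => ‖w n‖)) :
    (∃ B, IsWeightedShift (p := p) w B) ∧ ∀ B, IsWeightedShift (p := p) w B →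
      (HasFHCSubspace B ↔ SummableWeights p.toReal w ∧ AveragedBound p.toReal w) ∧
      (HasFHCSubspace B ↔ SummableWeights p.toReal w ∧ NullSubspaceAlongDensity B) := by
  refine ⟨H740Z.Fs.exists_shift hp hb, fun B hB => ?_⟩
  have h := H740Z.Fs.main (B := B) hp hw hB
  have h1 := H740Z.Fs.good_iff (B := B) hp hw hB
  have h2 := H740Z.Fs.good_iff' (B := B) hp hw hB
  simp only [HasFHCSubspace, IsFHCVector, SummableWeights, AveragedBound, lowerDensity,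
    NullSubspaceAlongDensity, H740Z.Fs.liminf_pos_iff, ← H740Z.Fs.β_eq]
  refine ⟨h.trans (and_congr_right fun _ => exists_congr fun A => and_congr_right fun _ => h1 A),
    h.trans (and_congr_right fun _ => exists_congr fun A => and_congr_right fun _ => h2 A)⟩

end Pool.Agent.Results.MP_0403fc_an.ACharacterization
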